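import Mathlib
import Pool.Agent.Results.MP_e7655a_nt.LateGcd

/-! # Clinic MP_e7655a: the case p = 3. If all prime factors of N^2 + 3 N + 3 are above N - e with (e + 2)^2 < 3 N + 6
and N > 3 is prime, then N^2 + 3 N + 3 is prime. -/

namespace Pool.Agent.H61G

open Pool.Agent.Results.MP_e7655a_nt.LateGcd (q q_eq)

theorem a3_arith (N e r1 r2 : ℕ) (hN : N.Prime) (h3 : 3 < N) (h12 : r1 ≤ r2) (hm : r1 * r2 = N ^ 2 + 3 * N + 3)
    (he : N + 1 ≤ r1 + e) (hE : (e + 2) ^ 2 < 3 * N + 6) : False := by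
  have h1 : r1 ≤ N + 1 := by
    by_contra hlt
    push Not at hlt
    nlinarith
  obtain ⟨w, hw⟩ : ∃ w, r1 + w = N + 1 := ⟨N + 1 - r1, by omega⟩
  have hwe : w ≤ e := by omega
  have h2 : r1 * r2 = r1 * (N + 1 + w + 1) + (w ^ 2 + w + 1) := by
    rw [hm]
    obtain rfl : N = r1 + w - 1 := by omega
    have h4 : r1 + w - 1 + 1 = r1 + w := by omega
    generalize r1 + w - 1 = M at *
    have h5 : r1 + w = M + 1 := by omega
    have h6 : (M : ℤ) = r1 + w - 1 := by
      have : ((r1 + w : ℕ) : ℤ) = ((M + 1 : ℕ) : ℤ) := by rw [h5]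
      push_cast at this
      linarith
    zify
    rw [h6]
    ring
  have h4 : r1 ∣ w ^ 2 + w + 1 := by
    have h5 : r1 ∣ r1 * (N + 1 + w + 1) + (w ^ 2 + w + 1) := h2 ▸ Dvd.intro r2 rfl
    exact (Nat.dvd_add_right (Dvd.intro _ rfl)).1 h5
  obtain ⟨k, hk⟩ := h4
  rcases Nat.lt_or_ge k 3 with hk3 | hk3
  · interval_cases k
    · simp at hk
    · have h5 : N = w * (w + 2) := by nlinarith
      rw [h5] at hN
      rcases Nat.prime_mul_iff.1 hN with ⟨_, h6⟩ | ⟨_, h6⟩
      · omega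
      · rw [h6] at h5
        omega
    · have h5 : Even (w * (w + 1)) := Nat.even_mul_succ_self w
      obtain ⟨c, hc⟩ := h5
      have h6 : w ^ 2 + w + 1 = 2 * c + 1 := by
        have : w ^ 2 + w = w * (w + 1) := by ring
        omega
      omega
  · have h5 : 3 * r1 ≤ w ^ 2 + w + 1 := by
      rw [hk, mul_comm]
      exact Nat.mul_le_mul_left r1 hk3
    have h6 : (w + 2) ^ 2 ≤ (e + 2) ^ 2 := Nat.pow_le_pow_left (by omega) 2
    nlinarith

/-- If N > 3 is prime, (e + 2)^2 < 3 N + 6, and all prime factors of N * q 3 N are above N - e, then q 3 N is prime. -/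
theorem a3_prime (N e : ℕ) (hN : N.Prime) (h3 : 3 < N) (hE : (e + 2) ^ 2 < 3 * N + 6)
    (hf : ∀ r, r.Prime → r ∣ N * q 3 N → N - e < r) : (q 3 N).Prime := by
  have hq : q 3 N = N ^ 2 + 3 * N + 3 := by
    rw [q_eq 3 N (by omega), Finset.sum_range_succ, Finset.sum_range_succ, Finset.sum_range_succ, Finset.sum_range_zero]
    ring
  by_contra hnp
  have h2 : 2 ≤ q 3 N := by
    rw [hq]
    omega
  have hr : (q 3 N).minFac.Prime := Nat.minFac_prime (by omega)
  obtain ⟨r2, hr2⟩ := Nat.minFac_dvd (q 3 N)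
  have h5 : (q 3 N).minFac ≤ r2 := by
    have h6 := Nat.minFac_sq_le_self (by omega : 0 < q 3 N) hnp
    rw [pow_two] at h6
    have h7 : (q 3 N).minFac * (q 3 N).minFac ≤ (q 3 N).minFac * r2 := h6.trans (le_of_eq hr2)
    exact Nat.le_of_mul_le_mul_left h7 hr.pos
  have h6 := hf _ hr ((Nat.minFac_dvd _).trans (Dvd.intro_left N rfl))
  exact a3_arith N e (q 3 N).minFac r2 hN h3 h5 (by rw [← hr2, hq]) (by omega) hE

end Pool.Agent.H61G
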