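import Mathlib

/-! # H61G, lemma AG: the number of prime factors of (x^p - 1)/(x - 1) when all of them are near x or larger -/

set_option autoImplicit false

namespace Pool.Agent.H61G

/-- Bernoulli's inequality in integral form. -/
theorem ag_bern (x E : ℤ) (h0 : 0 ≤ E) (h : E ≤ x) (n : ℕ) : x ^ n * (x - n * E) ≤ (x - E) ^ n * x := by
  induction n with
  | zero => simp
  | succ n ih =>
    have hx : 0 ≤ x := h0.trans h
    have h1 : (x - E) * (x ^ n * (x - n * E)) ≤ (x - E) * ((x - E) ^ n * x) :=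
      mul_le_mul_of_nonneg_left ih (sub_nonneg.2 h)
    have h2 : 0 ≤ x ^ n * (n * E ^ 2) := by positivity
    push_cast
    calc x ^ (n + 1) * (x - (n + 1) * E) = (x - E) * (x ^ n * (x - n * E)) - x ^ n * (n * E ^ 2) := by ring
      _ ≤ (x - E) * (x ^ n * (x - n * E)) := by linarith
      _ ≤ (x - E) * ((x - E) ^ n * x) := h1
      _ = (x - E) ^ (n + 1) * x := by ring

/-- The product of numbers at least b is at least its value at the extreme point. -/
theorem ag_prod (b : ℤ) (hb : 0 ≤ b) (l : List ℤ) (hl : ∀ r ∈ l, b ≤ r) (n : ℕ) (hn : l.length = n + 1) :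
    b ^ n * (l.sum - n * b) ≤ l.prod ∧ b ≤ l.sum - n * b := by
  induction n generalizing l with
  | zero =>
    obtain ⟨r, rfl⟩ := List.length_eq_one_iff.1 hn
    have h1 := hl r (List.mem_singleton_self r)
    simp [h1]
  | succ n ih =>
    match l, hn, hl with
    | r :: l, hn, hl =>
      obtain ⟨h1, h2⟩ := ih l (fun s hs => hl s (List.mem_cons_of_mem r hs)) (by simpa using hn)
      have h3 : b ≤ r := hl r List.mem_cons_self
      rw [List.sum_cons, List.prod_cons]
      push_cast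
      refine ⟨?_, by linarith⟩
      have h4 : 0 ≤ b ^ n := pow_nonneg hb n
      have h5 : 0 ≤ (r - b) * (l.sum - n * b - b) := mul_nonneg (by linarith) (by linarith)
      have h6 : 0 ≤ b ^ n * ((r - b) * (l.sum - n * b - b)) := mul_nonneg h4 h5
      have h7 : r * (b ^ n * (l.sum - n * b)) ≤ r * l.prod := mul_le_mul_of_nonneg_left h1 (hb.trans h3)
      calc b ^ (n + 1) * (r + l.sum - (n + 1) * b)
          = r * (b ^ n * (l.sum - n * b)) - b ^ n * ((r - b) * (l.sum - n * b - b)) := by ring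
        _ ≤ r * (b ^ n * (l.sum - n * b)) := by linarith
        _ ≤ r * l.prod := h7

theorem ag_pow (b : ℤ) (hb : 0 ≤ b) (l : List ℤ) (hl : ∀ r ∈ l, b ≤ r) : b ^ l.length ≤ l.prod := by
  induction l with
  | nil => simp
  | cons r l ih =>
    rw [List.prod_cons, List.length_cons, pow_succ']
    exact mul_le_mul (hl r List.mem_cons_self) (ih fun s hs => hl s (List.mem_cons_of_mem r hs)) (pow_nonneg hb _)
      (hb.trans (hl r List.mem_cons_self))

/-- A natural number against the exponential through x and x + 1. -/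
theorem ag_one (x r : ℕ) (hx : 1 ≤ x) : (r : ℝ) ≤ x * (1 + 1 / (x : ℝ)) ^ ((r : ℤ) - x) := by
  have hx0 : (0 : ℝ) < x := by exact_mod_cast hx
  have hb : (0 : ℝ) < 1 + 1 / (x : ℝ) := by positivity
  rcases le_or_gt x r with h | h
  · obtain ⟨k, rfl⟩ := Nat.exists_eq_add_of_le h
    have e : ((x + k : ℕ) : ℤ) - x = (k : ℤ) := by push_cast; ring
    rw [e, zpow_natCast]
    have h1 := one_add_mul_le_pow (a := 1 / (x : ℝ)) (by have : 0 < 1 / (x : ℝ) := by positivity
                                                         linarith) k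
    have h2 : (x : ℝ) * (1 + k * (1 / (x : ℝ))) ≤ x * (1 + 1 / (x : ℝ)) ^ k :=
      mul_le_mul_of_nonneg_left h1 hx0.le
    have h3 : (x : ℝ) * (1 + k * (1 / (x : ℝ))) = x + k := by field_simp
    push_cast
    linarith
  · obtain ⟨k, hk⟩ := Nat.exists_eq_add_of_le h.le
    have e : (r : ℤ) - x = -(k : ℤ) := by rw [hk]; push_cast; ring
    rw [e, zpow_neg, zpow_natCast, ← div_eq_mul_inv, le_div_iff₀ (pow_pos hb k)]
    have h1 : (1 + 1 / (x : ℝ)) ^ k ≤ ((x : ℝ) / r) ∨ r = 0 := by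
      rcases Nat.eq_zero_or_pos r with h0 | h0
      · exact Or.inr h0
      · left
        have hr0 : (0 : ℝ) < r := by exact_mod_cast h0
        have h2 := one_add_mul_le_pow (a := -(1 / ((x : ℝ) + 1))) (by
          have : 1 / ((x : ℝ) + 1) ≤ 1 := by
            rw [div_le_one (by linarith)]
            linarith
          linarith) k
        have h3 : (1 + -(1 / ((x : ℝ) + 1))) = (1 + 1 / (x : ℝ))⁻¹ := by
          field_simp
          ring
        rw [h3, inv_pow] at h2
        have h4 : (r : ℝ) / x ≤ 1 + k * -(1 / ((x : ℝ) + 1)) := by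
          have h5 : (x : ℝ) = r + k := by exact_mod_cast hk
          have h6 : (r : ℝ) / x = 1 - k / x := by
            rw [h5]
            field_simp
            ring
          have h7 : (k : ℝ) / (x + 1) ≤ k / x := by
            apply div_le_div_of_nonneg_left (Nat.cast_nonneg k) hx0
            linarith
          have h8 : (k : ℝ) * -(1 / ((x : ℝ) + 1)) = -(k / (x + 1)) := by ring
          rw [h6, h8]
          linarith
        have h5 : (r : ℝ) / x ≤ ((1 + 1 / (x : ℝ)) ^ k)⁻¹ := h4.trans h2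
        have h6 := inv_anti₀ (by positivity) h5
        rwa [inv_inv, inv_div] at h6
    rcases h1 with h1 | h1
    · have hr0 : (r : ℝ) ≥ 0 := Nat.cast_nonneg r
      rcases Nat.eq_zero_or_pos r with h0 | h0
      · rw [h0]
        simp
      · have hr1 : (0 : ℝ) < r := by exact_mod_cast h0
        calc (r : ℝ) * (1 + 1 / (x : ℝ)) ^ k ≤ r * (x / r) := mul_le_mul_of_nonneg_left h1 hr0
          _ = x := by field_simp
    · rw [h1]
      simp

theorem ag_list (x : ℕ) (hx : 1 ≤ x) (l : List ℕ) :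
    (l.prod : ℝ) ≤ (x : ℝ) ^ l.length * (1 + 1 / (x : ℝ)) ^ ((l.sum : ℤ) - l.length * x) := by
  have hx0 : (0 : ℝ) < x := by exact_mod_cast hx
  have hb : (0 : ℝ) < 1 + 1 / (x : ℝ) := by positivity
  induction l with
  | nil => simp
  | cons r l ih =>
    have e : (((r :: l).sum : ℕ) : ℤ) - ((r :: l).length : ℤ) * x =
        ((r : ℤ) - x) + ((l.sum : ℤ) - l.length * x) := by
      rw [List.sum_cons, List.length_cons]
      push_cast
      ring
    rw [e, zpow_add₀ hb.ne', List.prod_cons, List.length_cons, pow_succ', Nat.cast_mul]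
    calc (r : ℝ) * (l.prod : ℝ) ≤ (x * (1 + 1 / (x : ℝ)) ^ ((r : ℤ) - x)) *
          ((x : ℝ) ^ l.length * (1 + 1 / (x : ℝ)) ^ ((l.sum : ℤ) - l.length * x)) :=
          mul_le_mul (ag_one x r hx) ih (Nat.cast_nonneg _) (by positivity)
      _ = _ := by ring

/-- Lemma AG: all factors of a factorization of 1 + x + ... + x^(p-1) are at least x - E, E small: there are at most p - 2 factors. -/
theorem ag (p x E : ℕ) (hp : 3 ≤ p) (hx : 2 ≤ x) (l : List ℕ) (hl : l.prod = ∑ k ∈ Finset.range p, x ^ k)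
    (hr : ∀ r ∈ l, x ≤ r + E) (hE : ((p - 2) * E + 2) ^ 2 + 2 ≤ x) : l.length ≤ p - 2 := by
  obtain ⟨n, rfl⟩ : ∃ n, p = n + 2 := ⟨p - 2, by omega⟩
  have hn : 1 ≤ n := by omega
  rw [Nat.add_sub_cancel] at hE ⊢
  by_contra hlen
  push Not at hlen
  -- everything in the integers
  obtain ⟨L, hL⟩ : ∃ L : List ℤ, L = l.map (fun r : ℕ => (r : ℤ)) := ⟨_, rfl⟩
  have hLlen : L.length = l.length := by rw [hL, List.length_map]
  have hLprod : L.prod = (l.prod : ℤ) := by
    rw [hL]
    exact (Nat.cast_list_prod l).symm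
  have hLsum : L.sum = (l.sum : ℤ) := by
    rw [hL]
    exact (Nat.cast_list_sum l).symm
  have hxE : (0 : ℤ) ≤ (x : ℤ) - E := by
    have h1 : E ≤ n * E := Nat.le_mul_of_pos_left E hn
    have h2 : n * E ≤ (n * E + 2) ^ 2 := by nlinarith [Nat.zero_le (n * E)]
    have h3 : E ≤ x := by omega
    exact_mod_cast sub_nonneg.2 (show (E : ℤ) ≤ x by exact_mod_cast h3)
  have hLr : ∀ r ∈ L, (x : ℤ) - E ≤ r := by
    intro r hr'
    rw [hL] at hr'
    obtain ⟨s, hs, rfl⟩ := List.mem_map.1 hr'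
    have := hr s hs
    have h2 : (x : ℤ) ≤ s + E := by exact_mod_cast this
    linarith
  have hgeom : ((x : ℤ) - 1) * L.prod = (x : ℤ) ^ (n + 2) - 1 := by
    rw [hLprod, hl]
    push_cast
    exact mul_geom_sum (x : ℤ) (n + 2)
  have hx2 : (2 : ℤ) ≤ x := by exact_mod_cast hx
  have hE' : ((n : ℤ) * E + 2) ^ 2 + 2 ≤ x := by exact_mod_cast hE
  have hn' : (1 : ℤ) ≤ n := by exact_mod_cast hn
  have hE0 : (0 : ℤ) ≤ E := Nat.cast_nonneg E
  have hEn : (E : ℤ) ≤ n * E := le_mul_of_one_le_left hE0 hn'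
  obtain ⟨t, ht⟩ : ∃ t : ℤ, t = n * E := ⟨_, rfl⟩
  rw [← ht] at hE' hEn
  have ht0 : 0 ≤ t := hE0.trans hEn
  have hEx : (E : ℤ) ≤ x := by linarith
  have hxpow : (0 : ℤ) < (x : ℤ) ^ n := by positivity
  rcases Nat.lt_or_ge (n + 1) l.length with hlong | hshort
  · -- at least p factors
    have h1 : ((x : ℤ) - E) ^ (n + 2) ≤ L.prod := by
      refine le_trans ?_ (ag_pow _ hxE L hLr)
      refine pow_le_pow_right₀ ?_ (by rw [hLlen]; omega)
      nlinarith
    have h2 := ag_bern (x : ℤ) E hE0 hEx (n + 2)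
    push_cast at h2
    have h3 : (2 : ℤ) ≤ x - (n + 2) * E := by nlinarith
    have h4 : ((x : ℤ) - 1) * ((x : ℤ) ^ (n + 2) * (x - (n + 2) * E)) ≤ ((x : ℤ) - 1) * L.prod * x := by
      have h5 : ((x : ℤ) - E) ^ (n + 2) * x ≤ L.prod * x := mul_le_mul_of_nonneg_right h1 (by linarith)
      have h6 := mul_le_mul_of_nonneg_left (h2.trans h5) (show (0 : ℤ) ≤ x - 1 by linarith)
      calc _ ≤ _ := h6
        _ = _ := by ring
    rw [hgeom] at h4
    have h5 : (0 : ℤ) < (x : ℤ) ^ (n + 2) := by positivity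
    have h6 : ((x : ℤ) - 1) * ((x : ℤ) ^ (n + 2) * 2) ≤ ((x : ℤ) - 1) * ((x : ℤ) ^ (n + 2) * (x - (n + 2) * E)) :=
      mul_le_mul_of_nonneg_left (mul_le_mul_of_nonneg_left h3 h5.le) (by linarith)
    nlinarith
  · have hlen' : l.length = n + 1 := by omega
    rcases le_or_gt ((n + 1) * x + 2) l.sum with hs | hs
    · -- the sum is large
      obtain ⟨h1, -⟩ := ag_prod _ hxE L hLr n (by rw [hLlen, hlen'])
      have h2 : (x : ℤ) + 2 + t ≤ L.sum - n * (x - E) := by
        rw [hLsum]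
        have h3 : ((n : ℤ) + 1) * x + 2 ≤ l.sum := by exact_mod_cast hs
        rw [ht]
        nlinarith
      have h3 : ((x : ℤ) - E) ^ n * (x + 2 + t) ≤ L.prod :=
        le_trans (mul_le_mul_of_nonneg_left h2 (pow_nonneg hxE n)) h1
      have h4 := ag_bern (x : ℤ) E hE0 hEx n
      rw [← ht] at h4
      have h5 : (x : ℤ) ^ n * (x - t) * (x + 2 + t) ≤ L.prod * x := by
        calc (x : ℤ) ^ n * (x - t) * (x + 2 + t) ≤ (((x : ℤ) - E) ^ n * x) * (x + 2 + t) :=
              mul_le_mul_of_nonneg_right h4 (by linarith)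
          _ = (((x : ℤ) - E) ^ n * (x + 2 + t)) * x := by ring
          _ ≤ L.prod * x := mul_le_mul_of_nonneg_right h3 (by linarith)
      have h6 : ((x : ℤ) - 1) * ((x : ℤ) ^ n * (x - t) * (x + 2 + t)) ≤ ((x : ℤ) ^ (n + 2) - 1) * x := by
        calc _ ≤ ((x : ℤ) - 1) * (L.prod * x) := mul_le_mul_of_nonneg_left h5 (by linarith)
          _ = (((x : ℤ) - 1) * L.prod) * x := by ring
          _ = _ := by rw [hgeom]
      have h7 : (x : ℤ) ^ n * (x * (x - (t ^ 2 + 2 * t) - 2) + (t ^ 2 + 2 * t)) ≤ 0 := by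
        have e : ((x : ℤ) - 1) * ((x : ℤ) ^ n * (x - t) * (x + 2 + t)) - ((x : ℤ) ^ (n + 2) - 1) * x =
            (x : ℤ) ^ n * (x * (x - (t ^ 2 + 2 * t) - 2) + (t ^ 2 + 2 * t)) + x := by ring
        linarith
      have h8 : (0 : ℤ) < x * (x - (t ^ 2 + 2 * t) - 2) + (t ^ 2 + 2 * t) := by nlinarith
      have h9 := mul_pos hxpow h8
      linarith
    · -- the sum is small
      have h1 := ag_list x (by omega) l
      have hx0 : (0 : ℝ) < x := by exact_mod_cast (by omega : 0 < x)
      have h2 : (1 + 1 / (x : ℝ)) ^ ((l.sum : ℤ) - l.length * x) ≤ (1 + 1 / (x : ℝ)) ^ (1 : ℤ) := by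
        refine zpow_le_zpow_right₀ ?_ ?_
        · have : 0 < 1 / (x : ℝ) := by positivity
          linarith
        · rw [hlen']
          have h3 : (l.sum : ℤ) < (n + 1) * x + 2 := by exact_mod_cast hs
          push_cast
          linarith
      have h3 : (l.prod : ℝ) ≤ (x : ℝ) ^ (n + 1) + (x : ℝ) ^ n := by
        rw [hlen'] at h1 h2
        refine h1.trans ((mul_le_mul_of_nonneg_left h2 (by positivity)).trans ?_)
        rw [zpow_one, mul_add, mul_one, pow_succ, mul_one_div, mul_div_assoc, div_self hx0.ne', mul_one]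
      have h4 : (l.prod : ℤ) ≤ (x : ℤ) ^ (n + 1) + (x : ℤ) ^ n := by exact_mod_cast h3
      rw [← hLprod] at h4
      have h5 := mul_le_mul_of_nonneg_left h4 (show (0 : ℤ) ≤ x - 1 by linarith)
      rw [hgeom] at h5
      have h6 : ((x : ℤ) - 1) * ((x : ℤ) ^ (n + 1) + (x : ℤ) ^ n) = (x : ℤ) ^ (n + 2) - (x : ℤ) ^ n := by ring
      rw [h6] at h5
      have h7 : (x : ℤ) ^ 1 ≤ (x : ℤ) ^ n := pow_le_pow_right₀ (by linarith) hn
      rw [pow_one] at h7
      linarith

end Pool.Agent.H61G
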