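import Pool.Agent.Lib.H25E.Bound

/-!
The gcd recursion between two consecutive zeros `N0 < N`: at each nontrivial gcd the elapsed time is at most the total
drop, up to a power saving. The total drop up to `n` is `(N0+1)^p + N0 - (a_p(n) + n)`, the sum of the numbers `gcd - 1`.
-/

namespace Pool.Agent.Lib.H61G

open Finset Pool.Agent.Lib.Sieve Pool.Agent.Lib.H25E
open Pool.Agent.Results.MP_e7655a_nt.LateGcd (a q a_succ)

section

variable {p N0 : ℕ}

/-- The sum of `gcd - 1` over the indices up to `n` is the drop. -/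
lemma levels_card' (hp : 1 ≤ p) (hN0 : 1 ≤ N0) (h0 : a p N0 = 0) {n : ℕ}
    (hne : ∀ m, N0 < m → m < n → a p m ≠ 0) (hn1 : N0 + 2 ≤ n)
    (hG : G p n ≠ 1) (z : ℕ) (T : Finset ℕ) (hT : ∀ y ∈ T, Y p (N0 + 1) < y ∧ y ≤ Y p n)
    (hz : ∀ y ∈ T, ∀ l : ℕ, l.Prime → l % 2 = 1 → l ≤ z → ¬ (y ^ p ≡ 2 ^ p [MOD l])) :
    z * T.card + (a p n + n) ≤ a p (N0 + 1) + (N0 + 1) := by
  classical
  have hex : ∀ y : ℕ, ∃ k, y ∈ T → (N0 + 2 ≤ k ∧ k ≤ n ∧ Y p k = y ∧ (G p k).Prime ∧
      G p k % 2 = 1 ∧ y ^ p ≡ 2 ^ p [MOD (G p k)]) := by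
    intro y
    by_cases hy : y ∈ T
    · obtain ⟨k, hk⟩ := level hp hN0 h0 hne n hn1 le_rfl hG y (hT y hy).1 (hT y hy).2
      exact ⟨k, fun _ => hk⟩
    · exact ⟨0, fun h => absurd h hy⟩
  choose f hf using hex
  have hinj : Set.InjOn f T := by
    intro x hx y hy hxy
    have h1 := (hf x hx).2.2.1
    have h2 := (hf y hy).2.2.1
    rw [hxy] at h1
    exact h1.symm.trans h2
  have hsub : T.image f ⊆ Icc (N0 + 2) n := by
    intro k hk
    obtain ⟨y, hy, rfl⟩ := Finset.mem_image.1 hk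
    exact Finset.mem_Icc.2 ⟨(hf y hy).1, (hf y hy).2.1⟩
  have hsum := sum_G hne n (by omega) le_rfl
  have hle : z * T.card ≤ ∑ k ∈ Icc (N0 + 2) n, (G p k - 1) := by
    calc z * T.card = ∑ y ∈ T, z := by simp [mul_comm]
      _ ≤ ∑ y ∈ T, (G p (f y) - 1) := by
          apply Finset.sum_le_sum
          intro y hy
          obtain ⟨-, -, -, h4, h5, h6⟩ := hf y hy
          have := hz y hy _ h4 h5
          by_contra hlt
          exact this (by omega) h6
      _ = ∑ k ∈ T.image f, (G p k - 1) := by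
          rw [Finset.sum_image (fun x hx y hy h => hinj hx hy h)]
      _ ≤ ∑ k ∈ Icc (N0 + 2) n, (G p k - 1) := Finset.sum_le_sum_of_subset hsub
  omega

/-- The drop up to `n`. -/
def Dr (p N0 n : ℕ) : ℕ := (N0 + 1) ^ p + N0 - (a p n + n)

lemma drop_eq (hN0 : 1 ≤ N0) (h0 : a p N0 = 0) {n : ℕ} (hne : ∀ m, N0 < m → m < n → a p m ≠ 0)
    (hn : N0 + 1 ≤ n) : Dr p N0 n + (a p n + n) = (N0 + 1) ^ p + N0 := by
  have hsum := sum_G hne n hn le_rfl
  rw [start hN0 h0] at hsum
  have h1le : 1 ≤ (N0 + 1) ^ p := Nat.one_le_pow _ _ (by omega)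
  unfold Dr
  omega

/-- The key inequality: `Y` rises above its starting value by at most a power of the drop. -/
lemma key' (hp : p.Prime) (hN0 : 1 ≤ N0) (h0 : a p N0 = 0) {n : ℕ}
    (hne : ∀ m, N0 < m → m < n → a p m ≠ 0) (hn1 : N0 + 2 ≤ n) (hG : G p n ≠ 1) :
    ∃ M : ℕ, Y p n ≤ Y p (N0 + 1) + qm p * (M + 1) ∧
      (M < 2 ^ kap p ∨ M ^ (kap p + 1) ≤ (32000 * Dr p N0 n) ^ kap p) := by
  set A := Y p (N0 + 1) with hA
  set B := Y p n with hB
  have hq0 := qm_pos p
  rcases Nat.lt_or_ge B A with hBA | hAB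
  · refine ⟨0, by omega, Or.inl (by positivity)⟩
  set M := B / qm p - A / qm p with hM
  refine ⟨M, ?_, ?_⟩
  · have h1 : B < qm p * (B / qm p + 1) := Nat.lt_mul_div_succ B hq0
    have h2 : qm p * (A / qm p) ≤ A := Nat.mul_div_le A _
    have h3 : A / qm p ≤ B / qm p := Nat.div_le_div_right hAB
    have h4 : B / qm p = A / qm p + M := by omega
    rw [h4] at h1
    have h5 : qm p * (A / qm p + M + 1) = qm p * (A / qm p) + qm p * (M + 1) := by ring
    omega
  · by_cases hsmall : M < 2 ^ kap p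
    · exact Or.inl hsmall
    right
    push Not at hsmall
    have hk0 : 0 < kap p := by unfold kap; omega
    -- choose `w` maximal with `w ^ kap <= M`
    let P : ℕ → Prop := fun w => w ^ kap p ≤ M
    have hM0 : 0 < M := lt_of_lt_of_le (by positivity) hsmall
    have h2M : 2 ≤ M := by
      have : 2 ^ 1 ≤ 2 ^ kap p := Nat.pow_le_pow_right (by omega) hk0
      omega
    set w := Nat.findGreatest P M with hw
    have hw2 : 2 ≤ w := Nat.le_findGreatest h2M hsmall
    have hwM : w ^ kap p ≤ M := Nat.findGreatest_spec (P := P) (m := 2) h2M hsmall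
    have hw1 : M < (w + 1) ^ kap p := by
      by_contra hcon
      push Not at hcon
      have h1 : w + 1 ≤ M := (Nat.le_self_pow hk0.ne' (w + 1)).trans hcon
      have h2 : w + 1 ≤ w := Nat.le_findGreatest (P := P) h1 hcon
      omega
    have hz2 : 2 ≤ w ^ 4 := by
      calc 2 ≤ 2 ^ 4 := by norm_num
        _ ≤ w ^ 4 := Nat.pow_le_pow_left hw2 4
    have hzM : (w ^ 4) ^ (198 * p + 26) ≤ B / qm p - A / qm p := by
      rw [← pow_mul]
      exact hwM
    obtain ⟨T, hT1, hT2, hT3⟩ := rough_count p hp (w ^ 4) hz2 A B hAB hzM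
    have hcard := levels_card' (by have := hp.two_le; omega) hN0 h0 hne hn1 hG (w ^ 4) T
      hT1 hT2
    rw [start hN0 h0] at hcard
    have h1le : 1 ≤ (N0 + 1) ^ p := Nat.one_le_pow _ _ (by omega)
    have hdr := drop_eq hN0 h0 hne (by omega)
    have hcard2 : w ^ 4 * T.card ≤ Dr p N0 n := by omega
    set S := Dr p N0 n with hSdef
    -- real inequality `w M <= 16000 S`
    have hw2' : (2 : ℝ) ≤ w := by exact_mod_cast hw2
    have hw0 : (0 : ℝ) < w := by linarith
    have hsqrt : Real.sqrt ((w ^ 4 : ℕ) : ℝ) = (w : ℝ) ^ 2 := by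
      rw [Real.sqrt_eq_iff_mul_self_eq (by positivity) (by positivity)]
      push_cast
      ring
    have hlog : Real.log ((w ^ 4 : ℕ) : ℝ) ≤ 4 * w := by
      push_cast
      rw [Real.log_pow]
      have := Real.log_le_sub_one_of_pos hw0
      push_cast
      linarith
    have hlog0 : 0 < Real.log ((w ^ 4 : ℕ) : ℝ) := by
      apply Real.log_pos
      exact_mod_cast (by omega : 1 < w ^ 4)
    have hreal : (w : ℝ) * M ≤ 16000 * S := by
      have h1 : (M : ℝ) ≤ T.card * (4000 * (Real.sqrt ((w ^ 4 : ℕ) : ℝ) *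
          Real.log ((w ^ 4 : ℕ) : ℝ))) := by
        rw [div_le_iff₀ (by rw [hsqrt]; positivity)] at hT3
        exact hT3
      have h2 : (M : ℝ) ≤ T.card * (16000 * (w : ℝ) ^ 3) := by
        refine h1.trans ?_
        apply mul_le_mul_of_nonneg_left _ (Nat.cast_nonneg _)
        rw [hsqrt]
        have : (w : ℝ) ^ 2 * Real.log ((w ^ 4 : ℕ) : ℝ) ≤ (w : ℝ) ^ 2 * (4 * w) :=
          mul_le_mul_of_nonneg_left hlog (by positivity)
        calc 4000 * ((w : ℝ) ^ 2 * Real.log ((w ^ 4 : ℕ) : ℝ)) ≤ 4000 * ((w : ℝ) ^ 2 * (4 * w)) := by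
              linarith
          _ = 16000 * (w : ℝ) ^ 3 := by ring
      have h3 : ((w ^ 4 : ℕ) : ℝ) * T.card ≤ S := by exact_mod_cast hcard2
      push_cast at h3
      calc (w : ℝ) * M ≤ w * (T.card * (16000 * (w : ℝ) ^ 3)) :=
            mul_le_mul_of_nonneg_left h2 hw0.le
        _ = 16000 * ((w : ℝ) ^ 4 * T.card) := by ring
        _ ≤ 16000 * S := by linarith
    have hnat : w * M ≤ 16000 * S := by exact_mod_cast hreal
    calc M ^ (kap p + 1) = M ^ kap p * M := pow_succ _ _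
      _ ≤ M ^ kap p * (w + 1) ^ kap p := Nat.mul_le_mul_left _ hw1.le
      _ ≤ M ^ kap p * (2 * w) ^ kap p := by
          apply Nat.mul_le_mul_left
          exact Nat.pow_le_pow_left (by omega) _
      _ = (2 * (w * M)) ^ kap p := by rw [← mul_pow]; ring
      _ ≤ (32000 * S) ^ kap p := Nat.pow_le_pow_left (by omega) _

/-- The saved exponent. -/
noncomputable def sav (p : ℕ) : ℝ := 1 / (kap p + 1)

/-- The constant. -/
noncomputable def Cd (p : ℕ) : ℝ := 1 + qm p * (2 ^ kap p + 1 + 32001)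

lemma sav_pos (p : ℕ) : 0 < sav p := by unfold sav; positivity

lemma sav_lt_one (p : ℕ) : sav p < 1 := by
  unfold sav
  have : (0 : ℝ) < kap p := by
    have : 0 < kap p := by unfold kap; omega
    exact_mod_cast this
  rw [div_lt_one (by positivity)]
  linarith

lemma Cd_pos (p : ℕ) : 0 < Cd p := by unfold Cd; positivity

/-- **Time is at most the drop.** At each nontrivial gcd `n`, `n - N0 ≤ D + C D^(1 - sav)`, where `D` is the drop up to
`n`. -/
theorem time_le_drop (hp : p.Prime) (hN0 : 1 ≤ N0) (h0 : a p N0 = 0) {n : ℕ}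
    (hne : ∀ m, N0 < m → m < n → a p m ≠ 0) (hn1 : N0 + 2 ≤ n) (hG : G p n ≠ 1) :
    1 ≤ Dr p N0 n ∧
    (n : ℝ) ≤ N0 + Dr p N0 n + Cd p * (Dr p N0 n : ℝ) ^ (1 - sav p) := by
  have hdr := drop_eq hN0 h0 hne (n := n) (by omega)
  -- the drop is positive
  have hD1 : 1 ≤ Dr p N0 n := by
    have hsum := sum_G hne n (by omega) le_rfl
    rw [start hN0 h0] at hsum
    have h1le : 1 ≤ (N0 + 1) ^ p := Nat.one_le_pow _ _ (by omega)
    obtain ⟨-, hs⟩ := step hne hn1 le_rfl
    have hmem : n ∈ Icc (N0 + 2) n := Finset.mem_Icc.2 ⟨hn1, le_rfl⟩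
    have hle : G p n - 1 ≤ ∑ k ∈ Icc (N0 + 2) n, (G p k - 1) :=
      Finset.single_le_sum (f := fun k => G p k - 1) (fun k _ => Nat.zero_le _) hmem
    omega
  refine ⟨hD1, ?_⟩
  obtain ⟨M, h1, h2⟩ := key' hp hN0 h0 hne hn1 hG
  rw [start_Y hN0 h0] at h1
  unfold Y at h1
  have h3 : n ≤ N0 + Dr p N0 n + 1 + qm p * (M + 1) := by omega
  set D := Dr p N0 n with hD
  have hD1' : (1 : ℝ) ≤ D := by exact_mod_cast hD1
  have hD0 : (0 : ℝ) < D := by linarith
  set X := (D : ℝ) ^ (1 - sav p) with hX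
  have hX1 : (1 : ℝ) ≤ X := by
    apply Real.one_le_rpow hD1'
    have := sav_lt_one p
    linarith
  have hMX : (M : ℝ) + 1 ≤ (2 ^ kap p + 1 + 32001) * X := by
    rcases h2 with h2 | h2
    · have h3 : (M : ℝ) ≤ 2 ^ kap p := by exact_mod_cast h2.le
      have h4 : (2 : ℝ) ^ kap p + 1 ≤ (2 ^ kap p + 1) * X :=
        le_mul_of_one_le_right (by positivity) hX1
      have h5 : (0 : ℝ) ≤ 32001 * X := by positivity
      linarith
    · have h3 : (M : ℝ) ^ (kap p + 1) ≤ (32000 * (D : ℝ)) ^ kap p := by exact_mod_cast h2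
      have hXk : X ^ (kap p + 1) = (D : ℝ) ^ kap p := by
        rw [hX, ← Real.rpow_natCast, ← Real.rpow_mul hD0.le, ← Real.rpow_natCast]
        congr 1
        unfold sav
        have : ((kap p : ℝ) + 1) ≠ 0 := by positivity
        push_cast
        field_simp
        ring
      have h4 : (M : ℝ) ^ (kap p + 1) ≤ (32000 * X) ^ (kap p + 1) := by
        refine h3.trans ?_
        rw [mul_pow 32000 X, hXk, mul_pow]
        apply mul_le_mul_of_nonneg_right _ (by positivity)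
        exact pow_le_pow_right₀ (by norm_num) (Nat.le_succ _)
      have h5 : (M : ℝ) ≤ 32000 * X :=
        le_of_pow_le_pow_left₀ (Nat.succ_ne_zero _) (by positivity) h4
      have h6 : (0 : ℝ) ≤ (2 ^ kap p + 1) * X := by positivity
      nlinarith
  have h7 : (n : ℝ) ≤ N0 + D + 1 + qm p * ((M : ℝ) + 1) := by exact_mod_cast h3
  have h8 : (qm p : ℝ) * ((M : ℝ) + 1) ≤ qm p * ((2 ^ kap p + 1 + 32001) * X) :=
    mul_le_mul_of_nonneg_left hMX (Nat.cast_nonneg _)
  have h9 : Cd p * X = X + qm p * ((2 ^ kap p + 1 + 32001) * X) := by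
    unfold Cd
    ring
  rw [h9]
  linarith

end

end Pool.Agent.Lib.H61G
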