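import Pool.Agent.Lib.H61G.Drop

/-!
The last nontrivial gcd before a zero `N`, and the elementary estimates for large `N0`.
-/

namespace Pool.Agent.Lib.H61G

open Finset Filter Topology Pool.Agent.Lib.H25E
open Pool.Agent.Results.MP_e7655a_nt.LateGcd (a q a_succ)

/-- All nontrivial gcds before the zero `N` occur at indices `≤ e`, where `e ≤ N0 + 1 + V + C V^(1 - sav)` and
`V = (N0+1)^p + N0 - N`. -/
theorem last_gcd {p N0 N : ℕ} (hp : p.Prime) (hN0 : 1 ≤ N0) (hNN : N0 < N) (h0 : a p N0 = 0) (hN : a p N = 0)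
    (hne : ∀ m, N0 < m → m < N → a p m ≠ 0) :
    N ≤ (N0 + 1) ^ p + N0 ∧ ∃ e : ℕ, N0 + 1 ≤ e ∧ e ≤ N ∧ (∀ m, e < m → m ≤ N → G p m = 1) ∧
      (e : ℝ) ≤ N0 + 1 + ((((N0 + 1) ^ p + N0 - N : ℕ) : ℝ)) +
        Cd p * ((((N0 + 1) ^ p + N0 - N : ℕ) : ℝ)) ^ (1 - sav p) := by
  have hdN := drop_eq hN0 h0 (n := N) hne (by omega)
  rw [hN] at hdN
  refine ⟨by omega, ?_⟩
  obtain ⟨e, he1, he2, he3, he4⟩ := exists_pred (p := p) (N0 := N0) (n := N + 1) (by omega)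
  refine ⟨e, he1, by omega, fun m h1 h2 => he4 m h1 (by omega), ?_⟩
  set V : ℕ := (N0 + 1) ^ p + N0 - N with hV
  have hVn : (0 : ℝ) ≤ (V : ℝ) := Nat.cast_nonneg _
  have hX0 : 0 ≤ Cd p * (V : ℝ) ^ (1 - sav p) := mul_nonneg (Cd_pos p).le (Real.rpow_nonneg hVn _)
  rcases he3 with he3 | ⟨he3, he5⟩
  · subst he3
    push_cast
    linarith
  · have hde := drop_eq hN0 h0 (n := e) (fun m h1 h2 => hne m h1 (by omega)) (by omega)
    have hae : a p e + e = N := by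
      rcases Nat.lt_or_ge e N with h | h
      · have hs := step hne (n := N) (by omega) le_rfl
        have hGN : G p N = 1 := he4 N h (by omega)
        have hr := run hne he1 le_rfl (fun m h1 h2 => he4 m h1 (by omega)) (N - 1) (by omega) (by omega)
        rw [hGN, hN] at hs
        omega
      · have : e = N := by omega
        subst this
        omega
    have hDV : Dr p N0 e = V := by omega
    have h := (time_le_drop hp hN0 h0 (fun m h1 h2 => hne m h1 (by omega)) he3 he5).2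
    rw [hDV] at h
    linarith

/-- For large `N0` the bound for the last nontrivial gcd is at most `(c + ε) N0^(p/2)` if the drop is at most
`N0 + c N0^(p/2)`. -/
theorem large_bound (p : ℕ) (hp3 : 3 ≤ p) (c C s ε : ℝ) (hc : 0 ≤ c) (hC : 0 ≤ C) (hs0 : 0 < s) (hs1 : s < 1)
    (hε : 0 < ε) : ∃ K : ℕ, ∀ N0 : ℕ, K ≤ N0 → ∀ V : ℝ, 0 ≤ V → V ≤ N0 + c * (N0 : ℝ) ^ ((p : ℝ) / 2) →
      (N0 : ℝ) + 1 + V + C * V ^ (1 - s) ≤ (c + ε) * (N0 : ℝ) ^ ((p : ℝ) / 2) := by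
  have t1 : Tendsto (fun n : ℕ => 3 * (n : ℝ) ^ (-(1 / 2) : ℝ) + C * (1 + c) * (n : ℝ) ^ (-s)) atTop (𝓝 0) := by
    have h1 : Tendsto (fun n : ℕ => (n : ℝ) ^ (-(1 / 2) : ℝ)) atTop (𝓝 0) :=
      (tendsto_rpow_neg_atTop (by norm_num)).comp tendsto_natCast_atTop_atTop
    have h2 : Tendsto (fun n : ℕ => (n : ℝ) ^ (-s)) atTop (𝓝 0) :=
      (tendsto_rpow_neg_atTop hs0).comp tendsto_natCast_atTop_atTop
    have h3 := (h1.const_mul 3).add (h2.const_mul (C * (1 + c)))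
    simpa using h3
  obtain ⟨K, hK⟩ := eventually_atTop.1 (t1.eventually (gt_mem_nhds hε))
  refine ⟨max K 1, fun N0 hN0 V hV0 hV => ?_⟩
  have h1 := hK N0 (le_trans (le_max_left _ _) hN0)
  have hN1 : 1 ≤ N0 := le_trans (le_max_right _ _) hN0
  have hn1 : (1 : ℝ) ≤ N0 := by exact_mod_cast hN1
  have hn0 : (0 : ℝ) < N0 := by linarith
  have hp3' : (3 : ℝ) ≤ p := by exact_mod_cast hp3
  set X := (N0 : ℝ) ^ ((p : ℝ) / 2) with hX
  have hX0 : 0 < X := Real.rpow_pos_of_pos hn0 _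
  -- `N0 ≤ X N0^(-1/2)`
  have h2 : (N0 : ℝ) ≤ X * (N0 : ℝ) ^ (-(1 / 2) : ℝ) := by
    rw [hX, ← Real.rpow_add hn0]
    calc (N0 : ℝ) = (N0 : ℝ) ^ (1 : ℝ) := (Real.rpow_one _).symm
      _ ≤ _ := Real.rpow_le_rpow_of_exponent_le hn1 (by linarith)
  have h3 : (N0 : ℝ) ≤ X := by
    calc (N0 : ℝ) = (N0 : ℝ) ^ (1 : ℝ) := (Real.rpow_one _).symm
      _ ≤ _ := Real.rpow_le_rpow_of_exponent_le hn1 (by linarith)
  have hX1 : 1 ≤ X := hn1.trans h3
  have h4 : V ≤ (1 + c) * X := by nlinarith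
  have h5 : V ^ (1 - s) ≤ (1 + c) * (X * (N0 : ℝ) ^ (-s)) := by
    calc V ^ (1 - s) ≤ ((1 + c) * X) ^ (1 - s) := Real.rpow_le_rpow hV0 h4 (by linarith)
      _ = (1 + c) ^ (1 - s) * X ^ (1 - s) := Real.mul_rpow (by linarith) hX0.le
      _ ≤ (1 + c) * (X * (N0 : ℝ) ^ (-s)) := by
          apply mul_le_mul _ _ (Real.rpow_nonneg hX0.le _) (by linarith)
          · calc (1 + c) ^ (1 - s) ≤ (1 + c) ^ (1 : ℝ) :=
                  Real.rpow_le_rpow_of_exponent_le (by linarith) (by linarith)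
              _ = 1 + c := Real.rpow_one _
          · rw [sub_eq_add_neg, Real.rpow_add hX0, Real.rpow_one]
            apply mul_le_mul_of_nonneg_left _ hX0.le
            exact Real.rpow_le_rpow_of_nonpos hn0 h3 (by linarith)
  have h6 : C * V ^ (1 - s) ≤ C * ((1 + c) * (X * (N0 : ℝ) ^ (-s))) := mul_le_mul_of_nonneg_left h5 hC
  have h7 : X * (3 * (N0 : ℝ) ^ (-(1 / 2) : ℝ) + C * (1 + c) * (N0 : ℝ) ^ (-s)) ≤ X * ε :=
    mul_le_mul_of_nonneg_left h1.le hX0.le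
  nlinarith

end Pool.Agent.Lib.H61G
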