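import Pool.Agent.Lib.H61G.Last
import Pool.Agent.Lib.H61G.A3
import Pool.Agent.Lib.H61G.AG

/-!
Zeros near the top of the range.
-/

namespace Pool.Agent.Lib.H61G

open Finset Filter Topology Pool.Agent.Lib.H25E
open Pool.Agent.Results.MP_e7655a_nt.LateGcd (a q a_succ q_eq factor_large prime_of_large)

/-- Elementary inequalities for large `X`, `e ≤ β X`, `N ≥ X^2 - c X`. -/
theorem elem (β c X e N : ℝ) (hβ : 0 ≤ β) (hc : 0 ≤ c) (he : 0 ≤ e) (heX : e ≤ β * X) (hN : X ^ 2 - c * X ≤ N)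
    (hX : 2 * β + c + 4 ≤ X) : 2 * e ≤ N ∧ 4 ≤ N := by
  have h1 : 4 ≤ X := by linarith
  constructor
  · nlinarith
  · nlinarith

theorem elem3 (β c X e N : ℝ) (hβ : 0 ≤ β) (hβ3 : β ^ 2 < 3) (hc : 0 ≤ c) (he : 0 ≤ e) (heX : e ≤ β * X)
    (hN : X ^ 2 - c * X ≤ N) (hX : (4 * β + 3 * c) / (3 - β ^ 2) ≤ X) (hX0 : 0 ≤ X) : (e + 2) ^ 2 < 3 * N + 6 := by
  have h0 : 0 < 3 - β ^ 2 := by linarith
  rw [div_le_iff₀ h0] at hX
  have h1 : (4 * β + 3 * c) * X ≤ (X * (3 - β ^ 2)) * X := mul_le_mul_of_nonneg_right hX hX0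
  have h2 : (e + 2) ^ 2 ≤ (β * X + 2) ^ 2 := pow_le_pow_left₀ (by linarith) (by linarith) 2
  nlinarith

theorem elemp (d β c X e N : ℝ) (hd : 0 ≤ d) (hβ : 0 ≤ β) (hβd : d * β < 1) (hc : 0 ≤ c) (he : 0 ≤ e)
    (heX : e ≤ β * X) (hN : X ^ 2 - c * X ≤ N) (hX : (4 * (d * β) + c + 6) / (1 - (d * β) ^ 2) ≤ X) (hX1 : 1 ≤ X) :
    (d * e + 2) ^ 2 + 2 ≤ N + 1 := by
  have hdb : 0 ≤ d * β := mul_nonneg hd hβ
  have h0 : 0 < 1 - (d * β) ^ 2 := by nlinarith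
  rw [div_le_iff₀ h0] at hX
  have h1 : (4 * (d * β) + c + 6) * X ≤ (X * (1 - (d * β) ^ 2)) * X := mul_le_mul_of_nonneg_right hX (by linarith)
  have h3 : d * e ≤ d * β * X := by
    calc d * e ≤ d * (β * X) := mul_le_mul_of_nonneg_left heX hd
      _ = _ := by ring
  have h2 : (d * e + 2) ^ 2 ≤ (d * β * X + 2) ^ 2 := pow_le_pow_left₀ (by positivity) (by linarith) 2
  nlinarith

theorem near_top (p : ℕ) (hp : p.Prime) (hp3 : 3 ≤ p) (c : ℝ)
    (hc : ((p : ℝ) - 2) * c < 1 ∨ (p = 3 ∧ c < Real.sqrt 3)) :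
    ∃ K : ℕ, ∀ N₀ N : ℕ, K ≤ N₀ → N₀ < N → a p N₀ = 0 → a p N = 0 → (∀ m, N₀ < m → m < N → a p m ≠ 0) →
      ((N₀ : ℝ) + 1) ^ p ≤ N + c * (N₀ : ℝ) ^ ((p : ℝ) / 2) →
      N.Prime ∧ (q p N).primeFactorsList.length ≤ p - 2 ∧ (p = 3 → (q p N).Prime) := by
  set c0 := max c 0 with hc0
  have hc00 : 0 ≤ c0 := le_max_right _ _
  have hcc : c ≤ c0 := le_max_left _ _
  have hp3' : (3 : ℝ) ≤ p := by exact_mod_cast hp3
  -- the choice of `ε`
  obtain ⟨ε, hε, hβ⟩ : ∃ ε : ℝ, 0 < ε ∧ (((p : ℝ) - 2) * (c0 + ε) < 1 ∨ (p = 3 ∧ (c0 + ε) ^ 2 < 3)) := by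
    rcases hc with hc | ⟨hc1, hc2⟩
    · have h1 : ((p : ℝ) - 2) * c0 < 1 := by
        rcases le_total c 0 with h | h
        · rw [hc0, max_eq_right h]; simp
        · rw [hc0, max_eq_left h]; exact hc
      refine ⟨(1 - ((p : ℝ) - 2) * c0) / (2 * p), by apply div_pos (by linarith) (by linarith), Or.inl ?_⟩
      have h2 : ((p : ℝ) - 2) * ((1 - ((p : ℝ) - 2) * c0) / (2 * p)) ≤ (1 - ((p : ℝ) - 2) * c0) / 2 := by
        rw [mul_div_assoc', div_le_div_iff₀ (by linarith) (by norm_num)]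
        nlinarith
      rw [mul_add]
      linarith
    · have h3 : (0 : ℝ) < Real.sqrt 3 := Real.sqrt_pos.2 (by norm_num)
      have h1 : c0 < Real.sqrt 3 := max_lt hc2 h3
      refine ⟨(Real.sqrt 3 - c0) / 2, by linarith, Or.inr ⟨hc1, ?_⟩⟩
      have h4 : c0 + (Real.sqrt 3 - c0) / 2 < Real.sqrt 3 := by linarith
      have h5 : (Real.sqrt 3) ^ 2 = 3 := Real.sq_sqrt (by norm_num)
      nlinarith
  set β := c0 + ε with hβdef
  have hβ0 : 0 ≤ β := by linarith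
  obtain ⟨K1, hK1⟩ := large_bound p hp3 c0 (Cd p) (sav p) ε hc00 (Cd_pos p).le (sav_pos p) (sav_lt_one p) hε
  obtain ⟨K2, hK2⟩ := exists_nat_ge (2 * β + c0 + 4)
  obtain ⟨K3, hK3⟩ := exists_nat_ge ((4 * β + 3 * c0) / (3 - β ^ 2))
  obtain ⟨K4, hK4⟩ := exists_nat_ge ((4 * (((p : ℝ) - 2) * β) + c0 + 6) / (1 - (((p : ℝ) - 2) * β) ^ 2))
  refine ⟨K1 + K2 + K3 + K4 + 1, fun N0 N hK hNN h0 hN hne hbig => ?_⟩
  have hN01 : 1 ≤ N0 := by omega
  have hn1 : (1 : ℝ) ≤ N0 := by exact_mod_cast hN01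
  have hn0 : (0 : ℝ) < N0 := by linarith
  have hKr : ((K1 + K2 + K3 + K4 + 1 : ℕ) : ℝ) ≤ N0 := by exact_mod_cast hK
  push_cast at hKr
  have k1 : (0 : ℝ) ≤ K1 := Nat.cast_nonneg _
  have k2 : (0 : ℝ) ≤ K2 := Nat.cast_nonneg _
  have k3 : (0 : ℝ) ≤ K3 := Nat.cast_nonneg _
  have k4 : (0 : ℝ) ≤ K4 := Nat.cast_nonneg _
  set X := (N0 : ℝ) ^ ((p : ℝ) / 2) with hX
  have hNX : (N0 : ℝ) ≤ X := by
    calc (N0 : ℝ) = (N0 : ℝ) ^ (1 : ℝ) := (Real.rpow_one _).symm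
      _ ≤ _ := Real.rpow_le_rpow_of_exponent_le hn1 (by linarith)
  have hX0 : 0 < X := by linarith
  have hX2 : X ^ 2 = (N0 : ℝ) ^ p := by
    rw [hX, ← Real.rpow_natCast, ← Real.rpow_mul hn0.le, ← Real.rpow_natCast]
    congr 1
    push_cast
    ring
  have hpow : (N0 : ℝ) ^ p ≤ ((N0 : ℝ) + 1) ^ p := pow_le_pow_left₀ hn0.le (by linarith) p
  have hcX : c * X ≤ c0 * X := mul_le_mul_of_nonneg_right hcc hX0.le
  have hNlow : X ^ 2 - c0 * X ≤ (N : ℝ) := by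
    rw [hX2]
    linarith
  obtain ⟨hNle, e, he1, he2, he3, he4⟩ := last_gcd hp hN01 hNN h0 hN hne
  set V : ℕ := (N0 + 1) ^ p + N0 - N with hV
  have hVr : (V : ℝ) = ((N0 : ℝ) + 1) ^ p + N0 - N := by
    rw [hV, Nat.cast_sub hNle]
    push_cast
    ring
  have hV1 : (V : ℝ) ≤ N0 + c0 * X := by
    rw [hVr]
    linarith
  have heX : (e : ℝ) ≤ β * X := he4.trans (hK1 N0 (by omega) V (Nat.cast_nonneg _) hV1)
  have he0 : (0 : ℝ) ≤ e := Nat.cast_nonneg _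
  obtain ⟨hb1, hb2⟩ := elem β c0 X e N hβ0 hc00 he0 heX hNlow (by linarith)
  have hN4 : 4 ≤ N := by exact_mod_cast hb2
  have h2e : 2 * e ≤ N := by exact_mod_cast hb1
  have heN : e < N := by omega
  have hfac : ∀ r : ℕ, r.Prime → r ∣ N * q p N → N - e < r := fun r hr hd =>
    factor_large p N e hp.two_le (by omega) heN hN he3 r hr hd
  have hNprime : N.Prime := by
    refine prime_of_large N (N - e) (by omega) (fun r hr hd => hfac r hr (hd.trans (dvd_mul_right _ _))) ?_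
    obtain ⟨f, hf⟩ : ∃ f, N = e + f := ⟨N - e, by omega⟩
    have h1 : N - e = f := by omega
    rw [h1]
    nlinarith
  have hq0 : q p N ≠ 0 := by
    rw [q_eq p N (by omega)]
    have : 0 < ∑ k ∈ range p, (N + 1) ^ k := Finset.sum_pos (fun k _ => by positivity) ⟨0, by simp; omega⟩
    omega
  have hthree : p = 3 → β ^ 2 < 3 → (q p N).Prime := by
    intro hp' hb
    subst hp'
    have h1 := elem3 β c0 X e N hβ0 hb hc00 he0 heX hNlow (by linarith) hX0.le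
    have h2 : (e + 2) ^ 2 < 3 * N + 6 := by exact_mod_cast h1
    exact Pool.Agent.H61G.a3_prime N e hNprime (by omega) h2 hfac
  rcases hβ with hβ | ⟨hβ1, hβ2⟩
  · have h1 := elemp ((p : ℝ) - 2) β c0 X e N (by linarith) hβ0 hβ hc00 he0 heX hNlow (by linarith) (by linarith)
    have h2 : ((p - 2) * e + 2) ^ 2 + 2 ≤ N + 1 := by
      have h3 : (((p - 2 : ℕ) : ℝ)) = (p : ℝ) - 2 := by
        rw [Nat.cast_sub (by omega)]
        norm_num
      rw [← h3] at h1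
      exact_mod_cast h1
    refine ⟨hNprime, ?_, fun h => hthree h ?_⟩
    · apply Pool.Agent.H61G.ag p (N + 1) e hp3 (by omega) (q p N).primeFactorsList
      · rw [Nat.prod_primeFactorsList hq0, q_eq p N (by omega)]
      · intro r hr
        have := hfac r (Nat.prime_of_mem_primeFactorsList hr)
          ((Nat.dvd_of_mem_primeFactorsList hr).trans (dvd_mul_left _ _))
        omega
      · exact h2
    · subst h
      norm_num at hβ
      nlinarith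
  · have hpr := hthree hβ1 hβ2
    refine ⟨hNprime, ?_, fun _ => hpr⟩
    rw [Nat.primeFactorsList_prime hpr]
    simp
    omega

end Pool.Agent.Lib.H61G
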